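import Pool.Agent.N784.CZ.Fin
import Pool.Agent.N784.HC.Exi

/-!
# Central orders of the L-functions of the ray class characters of every number field

Let `K` be any number field and `𝔮` a nonzero ideal.  The characters of `Gal(K(𝔮)/K)`, `K(𝔮)` the
narrow ray class field modulo `𝔮`, are the primitive (narrow) ray class characters `ψ` of `K`
whose conductor divides `𝔮`, and `L(s, ψ)` is the Artin L-function of `ψ`, and of the representation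
of `Gal(ℚ̄/ℚ)`, of dimension `[K : ℚ]`, induced by `ψ`.  We prove, for every `𝔮`, unconditionally, that
the average over all the `ψ` of conductor dividing `𝔮` (and `≠ (1)`) of the order of vanishing of
`L(s, ψ)` at `s = 1/2` is at most `C (1 + log U(𝔮))`, where `U(𝔮)` is the number of residue classes
modulo `𝔮` which contain a unit of `K`, and `C` depends only on `K`; and the proportion of the `ψ` with
order at least `k` is at most `C U(𝔮) e^(-ck)`.  For `K = ℚ` and `K` imaginary quadratic the average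
order is therefore bounded; for every `K` and `δ > 0` there are infinitely many `𝔮` with
`U(𝔮) ≤ N(𝔮)^δ`.  The same holds for the zeros in the disc of radius `1/(C + log N(𝔮))`
around every point `1/2 + it`, with explicit dependence on `t`, and for the Hecke characters of an
arbitrary infinity type (this includes the L-functions of the CM abelian varieties over `K`).
-/

set_option autoImplicit false

open NumberField

namespace Pool.Agent.Results.MP_347b49_nt.CentralOrders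

section chars

variable {K : Type} [Field K] [NumberField K]

/-- `x` is totally positive -/
def TotPos (x : 𝓞 K) : Prop := ∀ τ : K →+* ℝ, 0 < τ (x : K)

/-- the archimedean part `∏_φ (φ(x)/|φ(x)|)^(n_φ)` -/
noncomputable def phase (n : (K →+* ℂ) → ℕ) (x : K) : ℂ :=
  ∏ φ : K →+* ℂ, (φ x / (‖φ x‖ : ℂ)) ^ n φ

/-- `n` is an infinity type: one of the exponents of two conjugate embeddings is zero.  (The
phases of `x` at conjugate embeddings are inverse to each other, so this is no restriction.  `n = 0` is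
the type of the ray class characters.) -/
def IsType (n : (K →+* ℂ) → ℕ) : Prop :=
  ∀ φ : K →+* ℂ, n φ = 0 ∨ n (ComplexEmbedding.conjugate φ) = 0

/-- `ψ` is a primitive Hecke character of (finite) conductor `𝔣` and infinity type `n` (with
arbitrary signs at the real places), as a completely multiplicative function on the ideals, zero on
the ideals not prime to `𝔣`.  For `n = 0` these are the primitive narrow ray class characters. -/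
structure IsPrimitive (𝔣 : Ideal (𝓞 K)) (n : (K →+* ℂ) → ℕ) (ψ : Ideal (𝓞 K) →*₀ ℂ) : Prop where
  ne_bot : 𝔣 ≠ ⊥
  supp : ∀ 𝔞 : Ideal (𝓞 K), 𝔞 ≠ ⊥ → (ψ 𝔞 ≠ 0 ↔ IsCoprime 𝔞 𝔣)
  ray : ∀ x : 𝓞 K, x ≠ 0 → x - 1 ∈ 𝔣 → TotPos x → ψ (Ideal.span {x}) = phase n (x : K)
  prim : ∀ 𝔤 : Ideal (𝓞 K), 𝔤 ∣ 𝔣 → 𝔤 ≠ 𝔣 → ∃ x : 𝓞 K, x - 1 ∈ 𝔤 ∧ TotPos x ∧
    IsCoprime (Ideal.span {x}) 𝔣 ∧ ψ (Ideal.span {x}) ≠ phase n (x : K)

/-- the primitive Hecke characters of infinity type `n` whose (finite) conductor divides `𝔮` and is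
not `(1)` -/
def family (n : (K →+* ℂ) → ℕ) (𝔮 : Ideal (𝓞 K)) : Set (Ideal (𝓞 K) →*₀ ℂ) :=
  {ψ | ∃ 𝔣 : Ideal (𝓞 K), 𝔣 ∣ 𝔮 ∧ 𝔣 ≠ ⊤ ∧ IsPrimitive 𝔣 n ψ}

/-- `F` is the entire function `L(s, ψ)`, given by its Euler product (over the prime ideals of `K`)
for `Re s > 1` -/
def IsL (ψ : Ideal (𝓞 K) →*₀ ℂ) (F : ℂ → ℂ) : Prop :=
  Differentiable ℂ F ∧ ∀ s : ℂ, 1 < s.re →
    HasProd (fun 𝔭 : {𝔭 : Ideal (𝓞 K) // Prime 𝔭} =>
      (1 - ψ 𝔭 * ((Ideal.absNorm (𝔭 : Ideal (𝓞 K)) : ℕ) : ℂ) ^ (-s))⁻¹) (F s)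

/-- the number of residue classes modulo `𝔮` which contain a unit of `K` -/
noncomputable def unitClasses (𝔮 : Ideal (𝓞 K)) : ℕ :=
  (Set.range (fun u : (𝓞 K)ˣ => Ideal.Quotient.mk 𝔮 (u : 𝓞 K))).ncard

end chars

section artin

variable {k : Type} [Field k] [NumberField k] {E : Type} [Field E] [NumberField E] [Algebra k E]
  {V : Type} [AddCommGroup V] [Module ℂ V]

/-- the inertia group of `P` in `Gal(E/k)` -/
def inertia (k : Type) [Field k] [NumberField k] [Algebra k E] (P : Ideal (𝓞 E)) :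
    Set (E ≃ₐ[k] E) :=
  {τ | ∀ x y : 𝓞 E, (y : E) = τ (x : E) → y - x ∈ P}

/-- `σ` is a Frobenius element at the prime ideal `P` above `𝔭`: `σ x ≡ x^(N𝔭) mod P`. -/
def IsFrob (𝔭 : Ideal (𝓞 k)) (P : Ideal (𝓞 E)) (σ : E ≃ₐ[k] E) : Prop :=
  P.IsPrime ∧ (∀ x ∈ 𝔭, algebraMap (𝓞 k) (𝓞 E) x ∈ P) ∧
    ∀ x y : 𝓞 E, (y : E) = σ (x : E) → y - x ^ (Ideal.absNorm 𝔭) ∈ P

/-- The projection of `V` onto the subspace of the vectors fixed by the inertia group of `P`. -/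
noncomputable def invProj (ρ : Representation ℂ (E ≃ₐ[k] E) V) (P : Ideal (𝓞 E)) : V →ₗ[ℂ] V :=
  ((inertia k P).ncard : ℂ)⁻¹ • ∑ᶠ τ ∈ inertia k P, ρ τ

/-- `det(1 - x ρ(σ) | V^I)`, where `I` is the inertia group of `P`. -/
noncomputable def eulerPoly (ρ : Representation ℂ (E ≃ₐ[k] E) V) (P : Ideal (𝓞 E))
    (σ : E ≃ₐ[k] E) (x : ℂ) : ℂ :=
  LinearMap.det (LinearMap.id - x • (ρ σ ∘ₗ invProj ρ P))

/-- `F` is the Artin L-function `L(s, ρ, E/k)`, and it is entire: for `Re s > 1` it is the product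
of `det(1 - N𝔭^(-s) ρ(Frob_𝔭) | V^(I_𝔭))⁻¹` over all primes `𝔭` of `k` (for every choice of the
primes above the `𝔭` and of the Frobenius elements). -/
def IsArtinL (ρ : Representation ℂ (E ≃ₐ[k] E) V) (F : ℂ → ℂ) : Prop :=
  Differentiable ℂ F ∧ ∀ (P : {𝔭 : Ideal (𝓞 k) // Prime 𝔭} → Ideal (𝓞 E))
    (σ : {𝔭 : Ideal (𝓞 k) // Prime 𝔭} → (E ≃ₐ[k] E)), (∀ 𝔭, IsFrob 𝔭.1 (P 𝔭) (σ 𝔭)) →
      ∀ s : ℂ, 1 < s.re → HasProd (fun 𝔭 : {𝔭 : Ideal (𝓞 k) // Prime 𝔭} =>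
        (eulerPoly ρ (P 𝔭) (σ 𝔭) (((Ideal.absNorm (𝔭 : Ideal (𝓞 k)) : ℕ) : ℂ) ^ (-s)))⁻¹) (F s)

/-- `ρ` corresponds to `ψ`, a character of the ideals of the extension `K` of `k` (that is, `ρ` is
induced by `ψ`): the Euler polynomial of `ρ` at every prime `𝔭` of `k` is
`∏_{𝔓 ∣ 𝔭} (1 - ψ(𝔓) x^f)`, the product being over the primes `𝔓` of `K` above `𝔭` and `f` being
the degree of `𝔓` over `𝔭`. -/
def Attached {K : Type} [Field K] [NumberField K] [Algebra k K] (ψ : Ideal (𝓞 K) →*₀ ℂ)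
    (ρ : Representation ℂ (E ≃ₐ[k] E) V) : Prop :=
  ∀ 𝔭 : Ideal (𝓞 k), Prime 𝔭 → ∀ (P : Ideal (𝓞 E)) (σ : E ≃ₐ[k] E), IsFrob 𝔭 P σ →
    ∀ x : ℂ, eulerPoly ρ P σ x =
      ∏ᶠ 𝔓 ∈ {𝔓 : Ideal (𝓞 K) | 𝔓.IsPrime ∧ 𝔓.LiesOver 𝔭}, (1 - ψ 𝔓 * x ^ (𝔓.inertiaDeg (𝓞 k)))

end artin

/-- the zeros of `F` in the closed disc of radius `r` around `z` -/
def zeros (F : ℂ → ℂ) (z : ℂ) (r : ℝ) : Set ℂ := {s : ℂ | ‖s - z‖ ≤ r ∧ F s = 0}

/-- the number of these zeros, counted with multiplicity -/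
noncomputable def N (F : ℂ → ℂ) (z : ℂ) (r : ℝ) : ℕ := ∑ᶠ s ∈ zeros F z r, analyticOrderNatAt F s

/-- `L ψ` is the entire function `L(s, ψ)` for all Hecke characters `ψ` of `K` of type `n` (and
conductor `≠ (1)`) -/
def LFunctions (K : Type) [Field K] [NumberField K] (n : (K →+* ℂ) → ℕ)
    (L : (Ideal (𝓞 K) →*₀ ℂ) → ℂ → ℂ) : Prop :=
  ∀ (𝔣 : Ideal (𝓞 K)) (ψ : Ideal (𝓞 K) →*₀ ℂ), 𝔣 ≠ ⊤ → IsPrimitive 𝔣 n ψ → IsL ψ (L ψ)

/-- the L-functions of the ray class characters (`n = 0`) are Artin L-functions over all subfields -/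
def ArtinLFunctions (K : Type) [Field K] [NumberField K]
    (L : (Ideal (𝓞 K) →*₀ ℂ) → ℂ → ℂ) : Prop :=
  ∀ (𝔣 : Ideal (𝓞 K)) (ψ : Ideal (𝓞 K) →*₀ ℂ), 𝔣 ≠ ⊤ → IsPrimitive 𝔣 0 ψ →
    ∀ (k : Type) [Field k] [NumberField k] [Algebra k K]
      (E : Type) [Field E] [NumberField E] [Algebra k E] [IsGalois k E]
      (V : Type) [AddCommGroup V] [Module ℂ V] [FiniteDimensional ℂ V]
      (ρ : Representation ℂ (E ≃ₐ[k] E) V), Attached ψ ρ → IsArtinL ρ (L ψ)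

/-- the orders of vanishing at `s = 1/2`: average and tail -/
def OrdersBound (K : Type) [Field K] [NumberField K] (n : (K →+* ℂ) → ℕ)
    (L : (Ideal (𝓞 K) →*₀ ℂ) → ℂ → ℂ) (c C : ℝ) : Prop :=
  ∀ 𝔮 : Ideal (𝓞 K), 𝔮 ≠ ⊥ → (family n 𝔮).Finite ∧
    (∀ k : ℕ, ({ψ ∈ family n 𝔮 | k ≤ analyticOrderNatAt (L ψ) (1 / 2)}.ncard : ℝ) ≤
      C * ((family n 𝔮).ncard * unitClasses 𝔮 * Real.exp (-(c * k)))) ∧
    ∑ᶠ ψ ∈ family n 𝔮, (analyticOrderNatAt (L ψ) (1 / 2) : ℝ) ≤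
      C * ((family n 𝔮).ncard * (1 + Real.log (unitClasses 𝔮)))

/-- the numbers of the zeros in the discs of radius `1/(C + log N(𝔮))` around the points
`1/2 + it`: average and tail -/
def SmallDiscs (K : Type) [Field K] [NumberField K] (n : (K →+* ℂ) → ℕ)
    (L : (Ideal (𝓞 K) →*₀ ℂ) → ℂ → ℂ) (c C : ℝ) : Prop :=
  ∀ 𝔮 : Ideal (𝓞 K), 𝔮 ≠ ⊥ → ∀ t : ℝ,
    (∀ ψ ∈ family n 𝔮, (zeros (L ψ) (1 / 2 + t * Complex.I)
      (1 / (C + Real.log (Ideal.absNorm 𝔮)))).Finite) ∧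
    (∀ k : ℕ, ({ψ ∈ family n 𝔮 | k ≤ N (L ψ) (1 / 2 + t * Complex.I)
      (1 / (C + Real.log (Ideal.absNorm 𝔮)))}.ncard : ℝ) ≤
      C * ((family n 𝔮).ncard * unitClasses 𝔮 * (1 + |t|) ^ C * Real.exp (-(c * k)))) ∧
    ∑ᶠ ψ ∈ family n 𝔮, (N (L ψ) (1 / 2 + t * Complex.I)
      (1 / (C + Real.log (Ideal.absNorm 𝔮))) : ℝ) ≤
      C * ((family n 𝔮).ncard * (1 + Real.log (unitClasses 𝔮) + Real.log (1 + |t|)))

/-! ### Auxiliary facts -/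

section

variable {K : Type} [Field K] [NumberField K] {n : (K →+* ℂ) → ℕ}

open Pool.Agent.N784.HC (IsHecke CTyp FamN)

lemma prim_iff (𝔣 : Ideal (𝓞 K)) (ψ : Ideal (𝓞 K) →*₀ ℂ) :
    IsPrimitive 𝔣 n ψ ↔ IsHecke K 𝔣 n ψ :=
  ⟨fun h => ⟨h.ne_bot, h.supp, h.ray, h.prim⟩, fun h => ⟨h.ne_bot, h.supp, h.ray, h.prim⟩⟩

lemma family_eq (𝔮 : Ideal (𝓞 K)) : family n 𝔮 = FamN n 𝔮 := by
  ext ψ
  constructor
  · rintro ⟨𝔣, h1, h2, h3⟩
    exact ⟨𝔣, h1, h2, (prim_iff 𝔣 ψ).mp h3⟩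
  · rintro ⟨𝔣, h1, h2, h3⟩
    exact ⟨𝔣, h1, h2, (prim_iff 𝔣 ψ).mpr h3⟩

lemma family_top : family n (⊤ : Ideal (𝓞 K)) = ∅ := by
  rw [Set.eq_empty_iff_forall_notMem]
  rintro ψ ⟨𝔣, h1, h2, -⟩
  exact h2 (top_le_iff.mp (Ideal.dvd_iff_le.mp h1))

/-- all the facts on the L-function of one character -/
lemma facts (hn : IsType n) (𝔣 : Ideal (𝓞 K)) (ψ : Ideal (𝓞 K) →*₀ ℂ) (htop : 𝔣 ≠ ⊤)
    (hψ : IsPrimitive 𝔣 n ψ) : (∀ 𝔞, ‖ψ 𝔞‖ ≤ 1) ∧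
    Differentiable ℂ (Pool.Agent.Y773.IQ.LL K ψ) ∧
    ∀ s : ℂ, 1 < s.re → Pool.Agent.Y773.IQ.LL K ψ s = Pool.Agent.Y773.LI ψ s := by
  obtain ⟨A, hA, hgood⟩ := Pool.Agent.N784.CZ.primF K (show CTyp n from hn)
  obtain ⟨h1, F, hF, hFL, -⟩ := hgood 𝔣 ψ htop ((prim_iff 𝔣 ψ).mp hψ)
  rw [Pool.Agent.Y773.IQ.LL_eq K hF hFL]
  exact ⟨h1, hF, hFL⟩

/-- the L-functions -/
theorem isL_LL (hn : IsType n) : LFunctions K n (Pool.Agent.Y773.IQ.LL K) := by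
  intro 𝔣 ψ htop hψ
  obtain ⟨hn, hF, hFL⟩ := facts hn 𝔣 ψ htop hψ
  refine ⟨hF, ?_⟩
  intro s hs
  have h1 := (Pool.Agent.Y773.hasSum_log hn hs).cexp
  rw [← Pool.Agent.Y772.DK.LI_eq_exp ψ hn hs, ← hFL s hs] at h1
  refine h1.congr_fun fun 𝔭 => ?_
  have hz := Pool.Agent.Y773.norm_zz_lt hn hs 𝔭.2
  have hne : 1 - Pool.Agent.Y773.zz ψ s 𝔭.1 ≠ 0 := by
    intro h0
    have h5 : Pool.Agent.Y773.zz ψ s 𝔭.1 = 1 := (sub_eq_zero.mp h0).symm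
    rw [h5, norm_one] at hz
    exact lt_irrefl _ hz
  change _ = Complex.exp (-Complex.log (1 - Pool.Agent.Y773.zz ψ s 𝔭.1))
  rw [Complex.exp_neg, Complex.exp_log hne]
  rfl

/-- they are Artin L-functions if `n = 0` -/
theorem isArtin : ArtinLFunctions K (Pool.Agent.Y773.IQ.LL K) := by
  intro 𝔣 ψ htop hψ k _ _ _ E _ _ _ _ V _ _ _ ρ hρ
  obtain ⟨hn, hF, hFL⟩ := facts (n := 0) (fun _ => Or.inl rfl) 𝔣 ψ htop hψ
  refine ⟨hF, fun P σ hσ s hs => ?_⟩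
  rw [hFL s hs]
  refine (Pool.Agent.N784.AD.hasProd_rel k hn hs).congr_fun fun 𝔭 => ?_
  rw [hρ 𝔭.1 𝔭.2 (P 𝔭) (σ 𝔭) (hσ 𝔭)]
  rfl

/-- the theorem on the zeros -/
theorem both (hn : IsType n) : ∃ c C : ℝ, 0 < c ∧ 1 ≤ C ∧
    OrdersBound K n (Pool.Agent.Y773.IQ.LL K) c C ∧
    SmallDiscs K n (Pool.Agent.Y773.IQ.LL K) c C := by
  classical
  obtain ⟨c, C, hc, hC, H⟩ := Pool.Agent.N784.CZ.cod_final K (show CTyp n from hn)
  refine ⟨c, C, hc, hC, ?_⟩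
  have hL : ∀ 𝔮 : Ideal (𝓞 K), ∀ ψ ∈ family n 𝔮, Differentiable ℂ (Pool.Agent.Y773.IQ.LL K ψ) ∧
      (∀ s : ℂ, 1 < s.re → Pool.Agent.Y773.IQ.LL K ψ s = Pool.Agent.Y773.LI ψ s) ∧
      Pool.Agent.Y773.IQ.LL K ψ 2 ≠ 0 := by
    rintro 𝔮 ψ ⟨𝔣, h1, h2, h3⟩
    obtain ⟨h4, h5, h6⟩ := facts hn 𝔣 ψ h2 h3
    exact ⟨h5, h6, by rw [h6 2 (by norm_num)]; exact Pool.Agent.N784.CZ.LI_ne h4 (by norm_num)⟩
  have hpt : ∀ t : ℝ, (1 / 2 + t * Complex.I : ℂ) = Pool.Agent.R399.TW.pt (1 / 2) t := by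
    intro t
    unfold Pool.Agent.R399.TW.pt
    push_cast
    ring
  have hsm : SmallDiscs K n (Pool.Agent.Y773.IQ.LL K) c C := by
    intro 𝔮 hbot t
    refine ⟨fun ψ hψ => Pool.Agent.N784.CZ.dz_finite (hL 𝔮 ψ hψ).1 (hL 𝔮 ψ hψ).2.2 _ _, ?_⟩
    by_cases htop : 𝔮 = ⊤
    · subst htop
      rw [family_top]
      exact ⟨fun k => by simp, by simp⟩
    have h1 := H 𝔮 hbot htop (Pool.Agent.Y773.IQ.LL K) (fun ψ hψ => by
      rw [← family_eq] at hψ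
      exact ⟨(hL 𝔮 ψ hψ).1, (hL 𝔮 ψ hψ).2.1⟩) t
    rw [← family_eq, ← hpt] at h1
    exact h1
  refine ⟨?_, hsm⟩
  intro 𝔮 hbot
  have hfin : (family n 𝔮).Finite := by
    by_cases htop : 𝔮 = ⊤
    · subst htop
      rw [family_top]
      exact Set.finite_empty
    · rw [family_eq]
      exact (Pool.Agent.N784.HC.FamN_finite hbot htop).1
  obtain ⟨h1, h2, h3⟩ := hsm 𝔮 hbot 0
  have hN1 : (1 : ℝ) ≤ (Ideal.absNorm 𝔮 : ℝ) := by
    exact_mod_cast Pool.Agent.Y773.IQ.absNorm_pos' hbot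
  have hlog0 : 0 ≤ Real.log (Ideal.absNorm 𝔮) := Real.log_nonneg hN1
  have h0 : (1 / 2 + ((0 : ℝ) : ℂ) * Complex.I : ℂ) = 1 / 2 := by push_cast; ring
  rw [h0] at h1 h2 h3
  have hle : ∀ ψ ∈ family n 𝔮, analyticOrderNatAt (Pool.Agent.Y773.IQ.LL K ψ) (1 / 2) ≤
      N (Pool.Agent.Y773.IQ.LL K ψ) (1 / 2) (1 / (C + Real.log (Ideal.absNorm 𝔮))) := fun ψ hψ =>
    Pool.Agent.N784.CZ.ord_le_nd (hL 𝔮 ψ hψ).1 (hL 𝔮 ψ hψ).2.2 _ (by positivity)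
  simp only [abs_zero, add_zero, Real.one_rpow, mul_one, Real.log_one] at h2 h3
  refine ⟨hfin, fun k => le_trans ?_ (h2 k), le_trans ?_ h3⟩
  · have h4 : {ψ ∈ family n 𝔮 | k ≤ analyticOrderNatAt (Pool.Agent.Y773.IQ.LL K ψ) (1 / 2)} ⊆
        {ψ ∈ family n 𝔮 | k ≤ N (Pool.Agent.Y773.IQ.LL K ψ) (1 / 2)
          (1 / (C + Real.log (Ideal.absNorm 𝔮)))} :=
      fun ψ hψ => ⟨hψ.1, hψ.2.trans (hle ψ hψ.1)⟩
    have h5 := Set.ncard_le_ncard h4 (hfin.subset fun ψ hψ => hψ.1)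
    exact_mod_cast h5
  · rw [finsum_mem_eq_finite_toFinset_sum _ hfin, finsum_mem_eq_finite_toFinset_sum _ hfin]
    refine Finset.sum_le_sum fun ψ hψ => ?_
    exact_mod_cast hle ψ (hfin.mem_toFinset.mp hψ)

end

/-- **Main theorem.**  Let `K` be a number field.  There are functions `L ψ` such that for every
infinity type `n` (`n = 0` included) `L ψ` is the L-function of `ψ` for all primitive Hecke characters
`ψ` of type `n` of conductor `≠ (1)`; for `n = 0` they are Artin L-functions over every subfield of `K`;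
and for every type `n` there are constants `c > 0` and `C` such that the bounds for the orders
at `s = 1/2` and for the zeros in the discs of radius `1/(C + log N(𝔮))` hold for all `𝔮 ≠ 0`.  For all
`δ > 0` there are arbitrarily large multiples of every ideal for which the units occupy at most
`N(𝔮)^δ` residue classes. -/
theorem result (K : Type) [Field K] [NumberField K] :
    (∃ L : (Ideal (𝓞 K) →*₀ ℂ) → ℂ → ℂ, ArtinLFunctions K L ∧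
      ∀ n : (K →+* ℂ) → ℕ, IsType n → LFunctions K n L ∧
        ∃ c C : ℝ, 0 < c ∧ 1 ≤ C ∧ OrdersBound K n L c C ∧ SmallDiscs K n L c C) ∧
    (∀ (𝔪 : Ideal (𝓞 K)) (δ B : ℝ), 𝔪 ≠ ⊥ → 0 < δ → ∃ 𝔮 : Ideal (𝓞 K), 𝔮 ≠ ⊥ ∧ 𝔪 ∣ 𝔮 ∧
      B ≤ (Ideal.absNorm 𝔮 : ℝ) ∧ (unitClasses 𝔮 : ℝ) ≤ (Ideal.absNorm 𝔮 : ℝ) ^ δ) :=
  ⟨⟨Pool.Agent.Y773.IQ.LL K, isArtin, fun _ hn => ⟨isL_LL hn, both hn⟩⟩,
    fun _ δ B hm hδ => Pool.Agent.N784.HC.exists_modM K hm δ B hδ⟩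

end Pool.Agent.Results.MP_347b49_nt.CentralOrders
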