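import Pool.Agent.N880.HP.CR
import Pool.Agent.N880.HP.C2
import Pool.Agent.N880.HP.PairFin

/-!
# Common zeros of two abelian Artin L-functions over `ℚ` at heights up to `X ^ τ`

Statement 1 of the question says that the multiset of all ordinates of the critical zeros of the
L-functions of the irreducible characters of a Galois group over `ℚ` is linearly independent; in
particular the zeros are simple, and no two of the L-functions have a common zero.  For the
cyclotomic field of the `lcm(q, r)`-th roots of unity these L-functions include `L(s, χ)` and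
`L(s, ψ)` for all primitive Dirichlet characters `χ` of conductor `q` and `ψ` of conductor `r`.

For `τ ≥ 0` let `h = (2 + τ) / (1 + τ)` and `c(h) = h/2 + cot(h/2)`.  Unconditionally, on average over
all pairs `(χ, ψ)` of primitive Dirichlet characters of conductors `X < q, r ≤ Y`, with the weight
`(q r)⁻²`, where `K X ≤ Y ≤ X ^ (1 + η)`, and for the zeros with `T < Im s ≤ 2 T`, where `T` may be any
number with `4 (log X)² ≤ T ≤ X ^ τ`: let `N` be the number of the zeros of one L-function, counted
with multiplicity; then at least `(2 - c(h) - ε) N` zeros of `L(s, χ)` are simple, lie on the critical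
line and are not zeros of `L(s, ψ)`; the two L-functions have at least `(3 - c(h) - ε) N` distinct
zeros; and the number of the common zeros, even if each is counted with the smaller of the two
multiplicities, is at most `(c(h) - 1 + ε) N` (the trivial bound is `N`).

`c` is decreasing on `(0, 2]`, `c(2) ≤ 1.6421` (`τ = 0`), `c(3/2) ≤ 1.827` (`τ = 1`) and
`c(19/15) ≤ 1.9975` (`τ = 2.75`), so that the first and the last statement are not trivial up to the
height `X ^ 2.75`, far above the conductors.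

Proof. The trace inequality for zeros (no hypothesis on zeros off the line) is applied to the product
`L(s, χ) L(s, ψ)`, an L-function of degree two.  Its prime side is the sum of two prime sides of
degree one, whose mean square over the family and over the Gaussian window of length `T` is bounded
with the sharp constant up to the length `(X² T) ^ (1 - δ)` by a large sieve for short blocks of
coefficients, and of the mixed term.  On average over the pairs the mixed term is the mean square of
the average of the prime sums over the family; the average of `χ(n)` over the family is at most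
`2 d(n - 1) / X` by Möbius inversion, and with the same Gaussian windows it is negligible up to the
length `(X² T) ^ (1 - δ)`.
-/

open Complex

namespace Pool.Agent.Results.MP_347b49_nt.CommonZerosPolynomialHeights

/-- The Dirichlet L-function of a character modulo `q` (the value for `q = 0` is never used). -/
noncomputable def Lfun (q : ℕ) (χ : DirichletCharacter ℂ q) : ℂ → ℂ :=
  if h : q = 0 then 0 else
    haveI : NeZero q := ⟨h⟩
    DirichletCharacter.LFunction χ

/-- The zeros of `F` in the open critical strip with ordinate in `(T, 2T]`. -/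
def zeros (F : ℂ → ℂ) (T : ℝ) : Set ℂ :=
  {s : ℂ | 0 < s.re ∧ s.re < 1 ∧ T < s.im ∧ s.im ≤ 2 * T ∧ F s = 0}

/-- The number of these zeros, counted with multiplicity. -/
noncomputable def N (F : ℂ → ℂ) (T : ℝ) : ℕ := ∑ᶠ s ∈ zeros F T, analyticOrderNatAt F s

/-- The zeros of `F` on the critical line which are simple and are not zeros of `G`. -/
def only (F G : ℂ → ℂ) (T : ℝ) : Set ℂ :=
  {s : ℂ | s ∈ zeros F T ∧ s.re = 1 / 2 ∧ analyticOrderNatAt F s = 1 ∧ G s ≠ 0}

/-- The number of the common zeros of `F` and `G`, each counted with the smaller of the two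
multiplicities. -/
noncomputable def common (F G : ℂ → ℂ) (T : ℝ) : ℕ :=
  ∑ᶠ s ∈ zeros F T ∩ zeros G T, min (analyticOrderNatAt F s) (analyticOrderNatAt G s)

/-- The primitive Dirichlet characters of conductor `q`. -/
def prim (q : ℕ) : Set (DirichletCharacter ℂ q) := {χ | χ.IsPrimitive}

/-- The sum of `f q χ r ψ / (q r)²` over all pairs of primitive Dirichlet characters `χ` of
conductor `q` and `ψ` of conductor `r`, `X < q, r ≤ Y`. -/
noncomputable def avg (X Y : ℕ)
    (f : (q : ℕ) → DirichletCharacter ℂ q → (r : ℕ) → DirichletCharacter ℂ r → ℕ) : ℝ :=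
  ∑ q ∈ Finset.Ioc X Y, ∑ᶠ χ ∈ prim q, ∑ r ∈ Finset.Ioc X Y, ∑ᶠ ψ ∈ prim r,
    (f q χ r ψ : ℝ) / ((q : ℝ) ^ 2 * (r : ℝ) ^ 2)

/-- The constant `c(h) = h/2 + cot(h/2)`. -/
noncomputable def c (h : ℝ) : ℝ := h / 2 + Real.cot (h / 2)

open Pool.Agent.R321.RC in
lemma finsum_prim {q : ℕ} (hq : q ≠ 0) (g : DirichletCharacter ℂ q → ℝ) :
    ∑ᶠ χ ∈ prim q, g χ = ∑ χ ∈ PF q, g χ := by
  have h : prim q = ((PF q : Finset _) : Set (DirichletCharacter ℂ q)) := by
    ext χ
    rw [Finset.mem_coe, mem_PF hq]
    rfl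
  rw [h, finsum_mem_coe_finset]

open Pool.Agent.R321.RC in
lemma avg_eq (X Y : ℕ)
    (f : (q : ℕ) → DirichletCharacter ℂ q → (r : ℕ) → DirichletCharacter ℂ r → ℕ) :
    avg X Y f = avg2 X Y (fun z => (f z.1.1 z.1.2 z.2.1 z.2.2 : ℝ)) := by
  unfold avg avg2 PS
  rw [Finset.sum_product, primSet_eq, Finset.sum_sigma]
  refine Finset.sum_congr rfl fun q hq => ?_
  have hq0 : q ≠ 0 := by
    rw [Finset.mem_Ioc] at hq
    omega
  rw [finsum_prim hq0]
  refine Finset.sum_congr rfl fun χ _ => ?_
  rw [Finset.sum_sigma]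
  refine Finset.sum_congr rfl fun r hr => ?_
  have hr0 : r ≠ 0 := by
    rw [Finset.mem_Ioc] at hr
    omega
  rw [finsum_prim hr0]
  refine Finset.sum_congr rfl fun ψ _ => ?_
  unfold w2
  simp only
  rw [div_eq_mul_inv, mul_inv, one_div, one_div]
  ring

/-- **Common zeros of two Dirichlet L-functions on average over all pairs of primitive characters,
heights up to `X ^ τ`.** -/
theorem result :
    (∀ τ ε : ℝ, 0 ≤ τ → 0 < ε → ∃ K η X₀ : ℝ, 1 ≤ K ∧ 0 < η ∧ 1 ≤ X₀ ∧
      ∀ (X Y : ℕ) (T : ℝ), X₀ ≤ X → K * X ≤ Y → (Y : ℝ) ≤ (X : ℝ) ^ (1 + η) →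
      4 * (Real.log X) ^ 2 ≤ T → T ≤ (X : ℝ) ^ τ →
      0 < avg X Y (fun q χ _ _ => N (Lfun q χ) T) ∧
      (∀ q : ℕ, X < q → ∀ χ ∈ prim q, (zeros (Lfun q χ) T).Finite) ∧
      (2 - c ((2 + τ) / (1 + τ)) - ε) * avg X Y (fun q χ _ _ => N (Lfun q χ) T) ≤
        avg X Y (fun q χ r ψ => (only (Lfun q χ) (Lfun r ψ) T).ncard) ∧
      (3 - c ((2 + τ) / (1 + τ)) - ε) * avg X Y (fun q χ _ _ => N (Lfun q χ) T) ≤
        avg X Y (fun q χ r ψ => (zeros (Lfun q χ) T ∪ zeros (Lfun r ψ) T).ncard) ∧
      avg X Y (fun q χ r ψ => common (Lfun q χ) (Lfun r ψ) T) ≤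
        (c ((2 + τ) / (1 + τ)) - 1 + ε) * avg X Y (fun q χ _ _ => N (Lfun q χ) T)) ∧
    (∀ a b : ℝ, 0 < a → a ≤ b → b ≤ 2 → c b ≤ c a) ∧
    c 2 ≤ 1.6421 ∧ c (3 / 2) ≤ 1.827 ∧ c (19 / 15) ≤ 1.9975 := by
  refine ⟨?_, Pool.Agent.N880.HP.c2_main.2⟩
  intro τ ε hτ hε
  have hcross := Pool.Agent.N880.HP.cross_main Pool.Agent.N880.HD.gauss_main
    Pool.Agent.N880.HD.winC_main Pool.Agent.N880.QF.Rest.rest_main
  have hms := Pool.Agent.N880.HD.ms_main (Pool.Agent.N880.HD.prim_main
    Pool.Agent.N880.HD.block_main Pool.Agent.N880.HD.cop_main) Pool.Agent.N880.HD.gauss_main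
    Pool.Agent.N880.HD.winC_main Pool.Agent.N880.QF.Rest.rest_main
  obtain ⟨K, η, X0, hK, hη, hX0, h⟩ := Pool.Agent.N880.HP.pairs_fin hcross hms
    Pool.Agent.N880.HP.c2_main τ ε hτ hε
  refine ⟨K, η, X0, hK, hη, hX0, ?_⟩
  intro X Y T hX hKX hY hT1 hT2
  obtain ⟨b0, bf, b1, b2, b3⟩ := h X Y T hX hKX hY hT1 hT2
  rw [avg_eq, avg_eq, avg_eq, avg_eq]
  exact ⟨b0, fun q hq χ hχ => bf q hq χ hχ, b1, b2, b3⟩

end Pool.Agent.Results.MP_347b49_nt.CommonZerosPolynomialHeights
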