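import Pool.Agent.N666.TB.Poly
import Pool.Agent.N54.ME.Two

/-!
# The Euler products at the central point for the roots of almost all sequences of polynomials

For a monic irreducible polynomial `f ∈ ℤ[X]` of degree `n ≥ 2`, `K = ℚ[X] / (f)`, the quotient
`ζ_K(s) / ζ(s)` is the Artin L-function of the permutation character of the Galois group on the roots
minus the trivial character.  This character is orthogonal; it is irreducible if the Galois group is
doubly transitive, e.g. if it is the symmetric group.  Part 2 of the problem predicts that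
`L(1/2) ≠ 0` for all irreducible orthogonal characters.  The order of vanishing at `1/2` is expected to
be visible in the growth of the partial Euler products at `1/2`.

The polynomials are `f_m = f₀ + x₀(m) X + x₁(m)`, where `x = (x₀, x₁)` is ONE sequence of pairs of integers
with arbitrary growth: for almost all pairs `ξ` of real numbers, in the sense of the Lebesgue measure,

* `x_i(m) = ⌊ξ_i g_i(m) + c_i(m)⌋`, where the `g_i`, `c_i` are ANY real sequences with
  `g_i(m + 1) - g_i(m) ≥ m ^ (ρ - 1)` for large `m` (for instance `g_i(m) = m`, `m ^ ρ`, `m!`);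
* `x_i(m) = ⌊ξ_i ^ g_i(m) + c_i(m)⌋`, `ξ_i > 1`, for ANY strictly increasing sequences `g_i` of natural numbers
  and any real sequences `c_i`;
* `x_i(m) = ⌊F_i,m(ξ_i)⌋`, `ξ_i ∈ (u_i, v_i]`, for all families of functions with separated increasing
  derivatives (`Spread`).

Example: `X^n + ⌊ξ₀ m⌋ X + ⌊ξ₁ m⌋`.  `m` runs through the integers, or the primes, of `(N, 2 N]`.

The theorem: for almost all these `ξ` (one null set for all degrees `n`, all `f₀` and all `ε`, `A`), for almost all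
`m` the product over the primes `p ≤ x` of the Euler factors at `1/2` for `f_m` is `(log x)^(1/2 + o(1))`, for *all* `x`
up to a power of `N`, with an explicit error term and a bound for the number of the exceptions, uniformly in the monic
polynomial `f₀` of degree `n`.  (This is the size of the central values which is predicted for families with
symplectic symmetry.)

The local analysis and the criterion for well distributed sequences are those of `ThinCentralProducts`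
(helper430, helper666); for almost all `ξ` the sequences are well distributed modulo all integers up to a power of
`N` (`Pool.Agent.N54.ME`, vector version of helper668's metric theorem).
-/

set_option autoImplicit false

namespace Pool.Agent.Results.MP_347b49_nt.MetricCentralProducts

open Polynomial Finset NumberField

/-- The monic irreducible divisors of `f` modulo `p`. -/
def primeDivisors (f : ℤ[X]) (p : ℕ) : Set (ZMod p)[X] :=
  {g | g.Monic ∧ Irreducible g ∧ g ∣ f.map (Int.castRingHom (ZMod p))}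

/-- `(1 - p^(-s)) ∏_g (1 - p^(-s deg g))⁻¹`, the product over the monic irreducible divisors `g` of `f`
modulo `p`: the Euler factor at `p` of `ζ_K(s) / ζ(s)`, see the theorem. -/
noncomputable def eulerFactor (f : ℤ[X]) (p : ℕ) (s : ℝ) : ℝ :=
  (1 - (p : ℝ) ^ (-s)) * ∏ᶠ g ∈ primeDivisors f p, (1 - (p : ℝ) ^ (-(g.natDegree * s)))⁻¹

/-- The product of the Euler factors at `s = 1/2` over the primes `p ≤ x`. -/
noncomputable def centralProduct (f : ℤ[X]) (x : ℕ) : ℝ :=
  ∏ p ∈ (Icc 1 x).filter Nat.Prime, eulerFactor f p (1 / 2)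

/-- The logarithm of the product of the polynomial `f` differs from `(1/2) log log x` by more than
`l (log log x)^(1/2) (1 + log log log x)^ε`, for an integer `x ≥ 16` with `x ^ k ≤ N`. -/
def Exceptional (f : ℤ[X]) (ε l : ℝ) (k N : ℕ) : Prop :=
  ∃ x : ℕ, 16 ≤ x ∧ x ^ k ≤ N ∧
    l * Real.log (Real.log x) ^ (1 / 2 : ℝ) * (1 + Real.log (Real.log (Real.log x))) ^ ε <
      |Real.log (centralProduct f x) - 1 / 2 * Real.log (Real.log x)|

/-- The law for the sequence of the polynomials `f₀ + x₀(m) X + x₁(m)`, for all degrees `n ≥ 2` and uniformly in the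
monic polynomial `f₀` of degree `n`, for the integers and for the primes `m` of `(N, 2 N]`. -/
def Law (x : ℕ → Fin 2 → ℤ) : Prop :=
  ∀ n : ℕ, 2 ≤ n → ∀ ε A : ℝ, 0 < ε → 0 < A → ∃ (k : ℕ) (C' : ℝ) (N₀ : ℕ), 0 < k ∧
    ∀ f₀ : ℤ[X], f₀.Monic → f₀.natDegree = n → ∀ N : ℕ, N₀ ≤ N → ∀ l : ℝ, 1 ≤ l →
      ({m : ℕ | N < m ∧ m ≤ 2 * N ∧ Exceptional (f₀ + C (x m 0) * X + C (x m 1)) ε l k N}.ncard : ℝ) ≤
        C' * l ^ (-A) * N ∧
      ({m : ℕ | N < m ∧ m ≤ 2 * N ∧ m.Prime ∧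
        Exceptional (f₀ + C (x m 0) * X + C (x m 1)) ε l k N}.ncard : ℝ) ≤
          C' * l ^ (-A) * ({m : ℕ | N < m ∧ m ≤ 2 * N ∧ m.Prime}.ncard : ℝ)

/-- On `[u, v]` the derivatives of the functions `F m` grow from `m` to `m + 1` by at least `m ^ (ρ - 1)`, and their
second derivatives do not decrease, for large `m`. -/
def Spread (ρ u v : ℝ) (F : ℕ → ℝ → ℝ) : Prop :=
  (∀ m, ContDiff ℝ 2 (F m)) ∧ ∃ m₀ : ℕ, ∀ m, m₀ ≤ m → ∀ x ∈ Set.Icc u v,
    (m : ℝ) ^ (ρ - 1) ≤ deriv (F (m + 1)) x - deriv (F m) x ∧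
      deriv (deriv (F m)) x ≤ deriv (deriv (F (m + 1))) x

/-- the members of the families, and the Euler factors -/
theorem local_part :
    (∀ n : ℕ, 2 ≤ n → ∀ f₀ : ℤ[X], f₀.Monic → f₀.natDegree = n → ∀ u v : ℤ,
      (f₀ + C u * X + C v).Monic ∧ (f₀ + C u * X + C v).natDegree = n) ∧
    (∀ f : ℤ[X], f.Monic → ∀ p : ℕ, p.Prime → (primeDivisors f p).Finite ∧
      0 < eulerFactor f p (1 / 2)) ∧
    (∀ (K : Type) [Field K] [NumberField K] (θ : 𝓞 K) (p : ℕ), p.Prime →
      ¬ p ∣ RingOfIntegers.exponent θ → ∀ s : ℝ, eulerFactor (minpoly ℤ θ) p s =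
        (1 - (p : ℝ) ^ (-s)) * ∏ᶠ P ∈ Ideal.primesOver (Ideal.span {(p : ℤ)}) (𝓞 K),
          (1 - (Ideal.absNorm P : ℝ) ^ (-s))⁻¹) ∧
    ∀ f : ℤ[X], f.Monic → ∀ x : ℕ, Real.log (centralProduct f x) =
      ∑ p ∈ Pool.Agent.N430.BP.Pr x, Pool.Agent.N430.BP.LLf f p := by
  classical
  have hmem : ∀ (f : ℤ[X]), f.Monic → ∀ (p : ℕ) (hp : p.Prime), haveI : Fact p.Prime := ⟨hp⟩
      primeDivisors f p = (Pool.Agent.N430.BP.irr (Pool.Agent.N430.BP.red f p) : Set (ZMod p)[X]) := by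
    intro f hf p hp
    haveI : Fact p.Prime := ⟨hp⟩
    ext g
    rw [Finset.mem_coe, Pool.Agent.N430.BP.mem_irr (Pool.Agent.N430.BP.red_monic hf p).1.ne_zero]
    rfl
  have hpow : ∀ (p : ℕ) (d : ℕ), (p : ℝ) ^ (-((d : ℝ) * (1 / 2))) = Pool.Agent.N430.BP.ri p ^ d := by
    intro p d
    unfold Pool.Agent.N430.BP.ri
    rw [Real.sqrt_eq_rpow, ← Real.rpow_neg (Nat.cast_nonneg _), ← Real.rpow_natCast,
      ← Real.rpow_mul (Nat.cast_nonneg _)]
    congr 1
    ring
  have hfac : ∀ (f : ℤ[X]), f.Monic → ∀ (p : ℕ) (hp : p.Prime), haveI : Fact p.Prime := ⟨hp⟩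
      eulerFactor f p (1 / 2) = (1 - Pool.Agent.N430.BP.ri p) *
        ∏ g ∈ Pool.Agent.N430.BP.irr (Pool.Agent.N430.BP.red f p),
          (1 - Pool.Agent.N430.BP.ri p ^ g.natDegree)⁻¹ := by
    intro f hf p hp
    haveI : Fact p.Prime := ⟨hp⟩
    unfold eulerFactor
    rw [hmem f hf p hp, finprod_mem_coe_finset]
    have h1 := hpow p 1
    rw [Nat.cast_one, one_mul, pow_one] at h1
    rw [h1]
    congr 1
    exact Finset.prod_congr rfl fun g _ => by rw [hpow p g.natDegree]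
  have hpos : ∀ (p : ℕ), p.Prime → ∀ d : ℕ, 1 ≤ d → 0 < 1 - Pool.Agent.N430.BP.ri p ^ d := by
    intro p hp d hd
    haveI : Fact p.Prime := ⟨hp⟩
    have h1 := Pool.Agent.N430.BP.ri_pow_le (p := p) hd
    have h2 := Pool.Agent.N430.BP.ri_le_three_four hp.two_le
    linarith
  have hlogfac : ∀ (f : ℤ[X]), f.Monic → ∀ (p : ℕ), p.Prime → 0 < eulerFactor f p (1 / 2) ∧
      Real.log (eulerFactor f p (1 / 2)) = Pool.Agent.N430.BP.LLf f p := by
    intro f hf p hp
    haveI : Fact p.Prime := ⟨hp⟩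
    rw [hfac f hf p hp]
    have h1 := hpos p hp 1 le_rfl
    rw [pow_one] at h1
    have h2 : ∀ g ∈ Pool.Agent.N430.BP.irr (Pool.Agent.N430.BP.red f p),
        0 < (1 - Pool.Agent.N430.BP.ri p ^ g.natDegree)⁻¹ := by
      intro g hg
      rw [Pool.Agent.N430.BP.mem_irr (Pool.Agent.N430.BP.red_monic hf p).1.ne_zero] at hg
      exact inv_pos.2 (hpos p hp _ hg.2.1.natDegree_pos)
    have h3 := Finset.prod_pos h2
    refine ⟨mul_pos h1 h3, ?_⟩
    rw [Real.log_mul h1.ne' h3.ne', Real.log_prod fun g hg => (h2 g hg).ne']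
    unfold Pool.Agent.N430.BP.LLf Pool.Agent.N430.BP.Lf Pool.Agent.N430.BP.hh
    rw [dif_pos hp, neg_neg]
    congr 1
    exact Finset.sum_congr rfl fun g _ => by rw [Real.log_inv]
  refine ⟨fun n hn f₀ hf₀ hd u v => ?_, fun f hf p hp => ⟨?_, (hlogfac f hf p hp).1⟩, ?_, ?_⟩
  · have := Pool.Agent.N430.BP.fam_monic' hf₀ (by rw [hd]; exact hn) u v
    rw [hd] at this
    exact this
  · haveI : Fact p.Prime := ⟨hp⟩
    rw [hmem f hf p hp]
    exact Finset.finite_toSet _
  · intro K _ _ θ p hp hexp s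
    haveI : Fact p.Prime := ⟨hp⟩
    unfold eulerFactor
    congr 1
    set e := NumberField.Ideal.primesOverSpanEquivMonicFactorsMod hexp with he
    have hmon : (minpoly ℤ θ).Monic := minpoly.monic θ.isIntegral
    have hset : primeDivisors (minpoly ℤ θ) p =
        (RingOfIntegers.monicFactorsMod θ p : Set (ZMod p)[X]) := by
      rw [hmem _ hmon p hp]
      rfl
    rw [hset, ← finprod_set_coe_eq_finprod_mem, ← finprod_set_coe_eq_finprod_mem]
    symm
    refine finprod_eq_of_bijective e e.bijective fun P => ?_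
    obtain ⟨Q, rfl⟩ := e.symm.surjective P
    rw [Equiv.apply_symm_apply]
    have h1 := NumberField.Ideal.inertiaDeg_primesOverSpanEquivMonicFactorsMod_symm_apply' hexp
      Q.2
    have h2 := Ideal.natAbs_pow_inertiaDeg (p : ℤ) (e.symm Q : Ideal (𝓞 K))
    rw [Int.natAbs_natCast] at h2
    rw [← h2]
    have h3 : (e.symm Q : Ideal (𝓞 K)).inertiaDeg ℤ = (Q : (ZMod p)[X]).natDegree := h1
    rw [h3]
    push_cast
    rw [← Real.rpow_natCast, ← Real.rpow_mul (Nat.cast_nonneg _), mul_neg]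
  intro f hf x
  unfold centralProduct
  rw [Real.log_prod fun p hp => ((hlogfac f hf p (mem_filter.1 hp).2).1).ne']
  exact Finset.sum_congr rfl fun p hp => (hlogfac f hf p (mem_filter.1 hp).2).2

theorem law_of {x : ℕ → Fin 2 → ℤ} {κ : ℝ} (hκ : 0 < κ) (hx : Pool.Agent.N54.ME.WS x κ) : Law x := by
  classical
  intro n hn ε A hε hA
  have hlog := local_part.2.2.2
  obtain ⟨hS₁, hS₂⟩ := hx.pair
  obtain ⟨k₁, K₁, N₁, hk₁, hK₁, H₁⟩ := Pool.Agent.N666.TB.thin_poly hn hκ hS₁ hε hA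
  obtain ⟨k₂, K₂, N₂, hk₂, hK₂, H₂⟩ := Pool.Agent.N666.TB.thin_poly hn hκ hS₂ hε hA
  refine ⟨max k₁ k₂, max K₁ K₂, max N₁ N₂, by omega, fun f₀ hf₀ hd N hN l hl => ?_⟩
  have hl0 : 0 < l ^ (-A) := Real.rpow_pos_of_pos (by linarith) _
  have hrew : ∀ m : ℕ,
      Exceptional (f₀ + C (x m 0) * X + C (x m 1)) ε l (max k₁ k₂) N ↔
      ∃ y : ℕ, 16 ≤ y ∧ y ^ (max k₁ k₂) ≤ N ∧
        l * Real.log (Real.log y) ^ (1 / 2 : ℝ) * (1 + Real.log (Real.log (Real.log y))) ^ ε <
          |∑ p ∈ Pool.Agent.N430.BP.Pr y, Pool.Agent.N430.BP.LLf (Pool.Agent.N666.TB.memP f₀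
            (Pool.Agent.N666.TB.prs (Pool.Agent.N54.ME.pairOf x m))) p -
              1 / 2 * Real.log (Real.log y)| := by
    intro m
    unfold Exceptional
    have hmon := (Pool.Agent.N430.BP.fam_monic' hf₀ (by rw [hd]; exact hn) (x m 0) (x m 1)).1
    simp only [hlog _ hmon]
    rfl
  constructor
  · have h1 := H₁ f₀ hf₀ hd (max k₁ k₂) (le_max_left _ _) N ((le_max_left _ _).trans hN) l hl
    set E := (Finset.Ioc N (2 * N)).filter fun m : ℕ => ∃ y : ℕ, 16 ≤ y ∧ y ^ (max k₁ k₂) ≤ N ∧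
        l * Real.log (Real.log y) ^ (1 / 2 : ℝ) * (1 + Real.log (Real.log (Real.log y))) ^ ε <
          |∑ p ∈ Pool.Agent.N430.BP.Pr y, Pool.Agent.N430.BP.LLf (Pool.Agent.N666.TB.memP f₀
            (Pool.Agent.N666.TB.prs (Pool.Agent.N54.ME.pairOf x m))) p -
              1 / 2 * Real.log (Real.log y)| with hE
    have e : {m : ℕ | N < m ∧ m ≤ 2 * N ∧
        Exceptional (f₀ + C (x m 0) * X + C (x m 1)) ε l (max k₁ k₂) N} = (E : Set ℕ) := by
      ext m
      rw [Finset.mem_coe, hE, Finset.mem_filter, Finset.mem_Ioc, ← hrew m]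
      show (N < m ∧ m ≤ 2 * N ∧ _) ↔ _
      tauto
    rw [e, Set.ncard_coe_finset]
    refine h1.trans ?_
    rw [Nat.card_Ioc, show 2 * N - N = N by omega]
    gcongr
    exact le_max_left _ _
  · have h1 := H₂ f₀ hf₀ hd (max k₁ k₂) (le_max_right _ _) N ((le_max_right _ _).trans hN) l hl
    set E := (Pool.Agent.N666.VE.primes N).filter fun m : ℕ => ∃ y : ℕ, 16 ≤ y ∧
        y ^ (max k₁ k₂) ≤ N ∧
        l * Real.log (Real.log y) ^ (1 / 2 : ℝ) * (1 + Real.log (Real.log (Real.log y))) ^ ε <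
          |∑ p ∈ Pool.Agent.N430.BP.Pr y, Pool.Agent.N430.BP.LLf (Pool.Agent.N666.TB.memP f₀
            (Pool.Agent.N666.TB.prs (Pool.Agent.N54.ME.pairOf x m))) p -
              1 / 2 * Real.log (Real.log y)| with hE
    have e : {m : ℕ | N < m ∧ m ≤ 2 * N ∧ m.Prime ∧
        Exceptional (f₀ + C (x m 0) * X + C (x m 1)) ε l (max k₁ k₂) N} = (E : Set ℕ) := by
      ext m
      rw [Finset.mem_coe, hE, Finset.mem_filter, Pool.Agent.N666.VE.primes, Finset.mem_filter,
        Finset.mem_Ioc, ← hrew m]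
      show (N < m ∧ m ≤ 2 * N ∧ _ ∧ _) ↔ _
      tauto
    have e2 : {m : ℕ | N < m ∧ m ≤ 2 * N ∧ m.Prime} =
        ((Pool.Agent.N666.VE.primes N : Finset ℕ) : Set ℕ) := by
      ext m
      rw [Finset.mem_coe, Pool.Agent.N666.VE.primes, Finset.mem_filter, Finset.mem_Ioc]
      show (N < m ∧ m ≤ 2 * N ∧ _) ↔ _
      tauto
    rw [e, e2, Set.ncard_coe_finset, Set.ncard_coe_finset]
    refine h1.trans ?_
    gcongr
    exact le_max_right _ _

/-- **The Euler products at the central point for almost all members of almost all sequences of polynomials.** -/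
theorem result :
    -- the three kinds of families of sequences
    (∀ ρ : ℝ, 0 < ρ → ρ ≤ 1 →
      (∀ (u v : Fin 2 → ℝ) (F : Fin 2 → ℕ → ℝ → ℝ), (∀ i, Spread ρ (u i) (v i) (F i)) →
        ∀ᵐ ξ : Fin 2 → ℝ, (∀ i, ξ i ∈ Set.Ioc (u i) (v i)) → Law (fun m i => ⌊F i m (ξ i)⌋)) ∧
      (∀ g c : Fin 2 → ℕ → ℝ, (∀ i, ∀ᶠ m : ℕ in Filter.atTop, (m : ℝ) ^ (ρ - 1) ≤ g i (m + 1) - g i m) →
        ∀ᵐ ξ : Fin 2 → ℝ, Law (fun m i => ⌊ξ i * g i m + c i m⌋)) ∧
      (∀ (g : Fin 2 → ℕ → ℕ) (c : Fin 2 → ℕ → ℝ), (∀ i, StrictMono (g i)) →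
        ∀ᵐ ξ : Fin 2 → ℝ, (∀ i, 1 < ξ i) → Law (fun m i => ⌊ξ i ^ g i m + c i m⌋))) ∧
    -- the members of the families, and the definitions
    (∀ n : ℕ, 2 ≤ n → ∀ f₀ : ℤ[X], f₀.Monic → f₀.natDegree = n → ∀ u v : ℤ,
      (f₀ + C u * X + C v).Monic ∧ (f₀ + C u * X + C v).natDegree = n) ∧
    (∀ f : ℤ[X], f.Monic → ∀ p : ℕ, p.Prime → (primeDivisors f p).Finite ∧
      0 < eulerFactor f p (1 / 2)) ∧
    (∀ (K : Type) [Field K] [NumberField K] (θ : 𝓞 K) (p : ℕ), p.Prime →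
      ¬ p ∣ RingOfIntegers.exponent θ → ∀ s : ℝ, eulerFactor (minpoly ℤ θ) p s =
        (1 - (p : ℝ) ^ (-s)) * ∏ᶠ P ∈ Ideal.primesOver (Ideal.span {(p : ℤ)}) (𝓞 K),
          (1 - (Ideal.absNorm P : ℝ) ^ (-s))⁻¹) :=
  ⟨fun ρ hρ hρ1 => Pool.Agent.N54.ME.three (ι := Fin 2) hρ hρ1 Law fun _ hz =>
    law_of (Pool.Agent.N54.ME.kap_pos hρ (Fintype.card (Fin 2))) hz,
    local_part.1, local_part.2.1, local_part.2.2.1⟩

end Pool.Agent.Results.MP_347b49_nt.MetricCentralProducts
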