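import Pool.Agent.N666.TB.Poly

/-!
# The Euler products at the central point for the roots of thin sequences of polynomials

For a monic irreducible polynomial `f ∈ ℤ[X]` of degree `n ≥ 2`, `K = ℚ[X] / (f)`, the quotient
`ζ_K(s) / ζ(s)` is the Artin L-function of the permutation character of the Galois group on the roots
minus the trivial character.  This character is orthogonal; it is irreducible if the Galois group is
doubly transitive, e.g. if it is the symmetric group.  Part 2 of the problem predicts that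
`L(1/2) ≠ 0` for all irreducible orthogonal characters.  The order of vanishing at `1/2` is expected to
be visible in the growth of the partial Euler products at `1/2`.

The polynomials are thin: `f_m = f₀ + ⌊P(m)⌋ X + ⌊Q(m)⌋`, where `P`, `Q` are generalised polynomials (finite
sums of real powers with real coefficients) whose leading exponents are positive, not integers and
different, with positive leading coefficients; `m` runs through the integers, or the primes, of
`(N, 2 N]`. Example: `X^n + ⌊m^√2⌋ X + ⌊m^√3⌋`.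

The theorem: for almost all these `m` the product over the primes `p ≤ x` of the Euler factors at `1/2` for
`f_m` is `(log x)^(1/2 + o(1))`, for *all* `x` up to a power of `N`, with an explicit error term and a
bound for the number of the exceptions, uniformly in the monic polynomial `f₀` of degree `n`.
(This is the size of the central values which is predicted for families with symplectic symmetry.)
-/

set_option autoImplicit false

namespace Pool.Agent.Results.MP_347b49_nt.ThinCentralProducts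

open Polynomial Finset NumberField

/-- The monic irreducible divisors of `f` modulo `p`. -/
def primeDivisors (f : ℤ[X]) (p : ℕ) : Set (ZMod p)[X] :=
  {g | g.Monic ∧ Irreducible g ∧ g ∣ f.map (Int.castRingHom (ZMod p))}

/-- `(1 - p^(-s)) ∏_g (1 - p^(-s deg g))⁻¹`, the product over the monic irreducible divisors `g` of `f`
modulo `p`: the Euler factor at `p` of `ζ_K(s) / ζ(s)`, see the theorem. -/
noncomputable def eulerFactor (f : ℤ[X]) (p : ℕ) (s : ℝ) : ℝ :=
  (1 - (p : ℝ) ^ (-s)) * ∏ᶠ g ∈ primeDivisors f p, (1 - (p : ℝ) ^ (-(g.natDegree * s)))⁻¹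

/-- The product of the Euler factors at `s = 1/2` over the primes `p ≤ x`. -/
noncomputable def centralProduct (f : ℤ[X]) (x : ℕ) : ℝ :=
  ∏ p ∈ (Icc 1 x).filter Nat.Prime, eulerFactor f p (1 / 2)

/-- `γ` is the largest exponent of the generalised polynomial `∑ α_x t ^ x`; it is positive and not an
integer and has a positive coefficient. -/
def Admissible (F : Finset ℝ) (α : ℝ → ℝ) (γ : ℝ) : Prop :=
  γ ∈ F ∧ (∀ x ∈ F, x ≤ γ) ∧ 0 < γ ∧ (∀ m : ℕ, γ ≠ m) ∧ 0 < α γ

/-- The integer part of the value at `m` of the generalised polynomial `∑ α_x t ^ x`, `x ∈ F`. -/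
noncomputable def floorAt (F : Finset ℝ) (α : ℝ → ℝ) (m : ℕ) : ℤ := ⌊∑ x ∈ F, α x * (m : ℝ) ^ x⌋

/-- The logarithm of the product of the polynomial `f` differs from `(1/2) log log x` by more than
`l (log log x)^(1/2) (1 + log log log x)^ε`, for an integer `x ≥ 16` with `x ^ k ≤ N`. -/
def Exceptional (f : ℤ[X]) (ε l : ℝ) (k N : ℕ) : Prop :=
  ∃ x : ℕ, 16 ≤ x ∧ x ^ k ≤ N ∧
    l * Real.log (Real.log x) ^ (1 / 2 : ℝ) * (1 + Real.log (Real.log (Real.log x))) ^ ε <
      |Real.log (centralProduct f x) - 1 / 2 * Real.log (Real.log x)|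

/-- **The Euler products at the central point for almost all members of a thin sequence of
polynomials.** -/
theorem result (n : ℕ) (hn : 2 ≤ n) (F G : Finset ℝ) (α β : ℝ → ℝ) (γ δ : ℝ)
    (hF : Admissible F α γ) (hG : Admissible G β δ) (hγδ : γ ≠ δ) :
    -- the members of the families, and the definitions
    (∀ f₀ : ℤ[X], f₀.Monic → f₀.natDegree = n → ∀ u v : ℤ,
      (f₀ + C u * X + C v).Monic ∧ (f₀ + C u * X + C v).natDegree = n) ∧
    (∀ f : ℤ[X], f.Monic → ∀ p : ℕ, p.Prime → (primeDivisors f p).Finite ∧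
      0 < eulerFactor f p (1 / 2)) ∧
    (∀ (K : Type) [Field K] [NumberField K] (θ : 𝓞 K) (p : ℕ), p.Prime →
      ¬ p ∣ RingOfIntegers.exponent θ → ∀ s : ℝ, eulerFactor (minpoly ℤ θ) p s =
        (1 - (p : ℝ) ^ (-s)) * ∏ᶠ P ∈ Ideal.primesOver (Ideal.span {(p : ℤ)}) (𝓞 K),
          (1 - (Ideal.absNorm P : ℝ) ^ (-s))⁻¹) ∧
    -- the law
    ∀ ε A : ℝ, 0 < ε → 0 < A → ∃ (k : ℕ) (C' : ℝ) (N₀ : ℕ), 0 < k ∧
      ∀ f₀ : ℤ[X], f₀.Monic → f₀.natDegree = n → ∀ N : ℕ, N₀ ≤ N → ∀ l : ℝ, 1 ≤ l →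
        ({m : ℕ | N < m ∧ m ≤ 2 * N ∧
          Exceptional (f₀ + C (floorAt F α m) * X + C (floorAt G β m)) ε l k N}.ncard : ℝ) ≤
            C' * l ^ (-A) * N ∧
        ({m : ℕ | N < m ∧ m ≤ 2 * N ∧ m.Prime ∧
          Exceptional (f₀ + C (floorAt F α m) * X + C (floorAt G β m)) ε l k N}.ncard : ℝ) ≤
            C' * l ^ (-A) * ({m : ℕ | N < m ∧ m ≤ 2 * N ∧ m.Prime}.ncard : ℝ) := by
  classical
  have hmem : ∀ (f : ℤ[X]), f.Monic → ∀ (p : ℕ) (hp : p.Prime), haveI : Fact p.Prime := ⟨hp⟩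
      primeDivisors f p = (Pool.Agent.N430.BP.irr (Pool.Agent.N430.BP.red f p) : Set (ZMod p)[X]) := by
    intro f hf p hp
    haveI : Fact p.Prime := ⟨hp⟩
    ext g
    rw [Finset.mem_coe, Pool.Agent.N430.BP.mem_irr (Pool.Agent.N430.BP.red_monic hf p).1.ne_zero]
    rfl
  have hpow : ∀ (p : ℕ) (d : ℕ), (p : ℝ) ^ (-((d : ℝ) * (1 / 2))) = Pool.Agent.N430.BP.ri p ^ d := by
    intro p d
    unfold Pool.Agent.N430.BP.ri
    rw [Real.sqrt_eq_rpow, ← Real.rpow_neg (Nat.cast_nonneg _), ← Real.rpow_natCast,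
      ← Real.rpow_mul (Nat.cast_nonneg _)]
    congr 1
    ring
  have hfac : ∀ (f : ℤ[X]), f.Monic → ∀ (p : ℕ) (hp : p.Prime), haveI : Fact p.Prime := ⟨hp⟩
      eulerFactor f p (1 / 2) = (1 - Pool.Agent.N430.BP.ri p) *
        ∏ g ∈ Pool.Agent.N430.BP.irr (Pool.Agent.N430.BP.red f p),
          (1 - Pool.Agent.N430.BP.ri p ^ g.natDegree)⁻¹ := by
    intro f hf p hp
    haveI : Fact p.Prime := ⟨hp⟩
    unfold eulerFactor
    rw [hmem f hf p hp, finprod_mem_coe_finset]
    have h1 := hpow p 1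
    rw [Nat.cast_one, one_mul, pow_one] at h1
    rw [h1]
    congr 1
    exact Finset.prod_congr rfl fun g _ => by rw [hpow p g.natDegree]
  have hpos : ∀ (p : ℕ), p.Prime → ∀ d : ℕ, 1 ≤ d → 0 < 1 - Pool.Agent.N430.BP.ri p ^ d := by
    intro p hp d hd
    haveI : Fact p.Prime := ⟨hp⟩
    have h1 := Pool.Agent.N430.BP.ri_pow_le (p := p) hd
    have h2 := Pool.Agent.N430.BP.ri_le_three_four hp.two_le
    linarith
  have hlogfac : ∀ (f : ℤ[X]), f.Monic → ∀ (p : ℕ), p.Prime → 0 < eulerFactor f p (1 / 2) ∧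
      Real.log (eulerFactor f p (1 / 2)) = Pool.Agent.N430.BP.LLf f p := by
    intro f hf p hp
    haveI : Fact p.Prime := ⟨hp⟩
    rw [hfac f hf p hp]
    have h1 := hpos p hp 1 le_rfl
    rw [pow_one] at h1
    have h2 : ∀ g ∈ Pool.Agent.N430.BP.irr (Pool.Agent.N430.BP.red f p),
        0 < (1 - Pool.Agent.N430.BP.ri p ^ g.natDegree)⁻¹ := by
      intro g hg
      rw [Pool.Agent.N430.BP.mem_irr (Pool.Agent.N430.BP.red_monic hf p).1.ne_zero] at hg
      exact inv_pos.2 (hpos p hp _ hg.2.1.natDegree_pos)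
    have h3 := Finset.prod_pos h2
    refine ⟨mul_pos h1 h3, ?_⟩
    rw [Real.log_mul h1.ne' h3.ne', Real.log_prod fun g hg => (h2 g hg).ne']
    unfold Pool.Agent.N430.BP.LLf Pool.Agent.N430.BP.Lf Pool.Agent.N430.BP.hh
    rw [dif_pos hp, neg_neg]
    congr 1
    exact Finset.sum_congr rfl fun g _ => by rw [Real.log_inv]
  refine ⟨fun f₀ hf₀ hd u v => ?_, fun f hf p hp => ⟨?_, (hlogfac f hf p hp).1⟩, ?_, ?_⟩
  · have := Pool.Agent.N430.BP.fam_monic' hf₀ (by rw [hd]; exact hn) u v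
    rw [hd] at this
    exact this
  · haveI : Fact p.Prime := ⟨hp⟩
    rw [hmem f hf p hp]
    exact Finset.finite_toSet _
  · intro K _ _ θ p hp hexp s
    haveI : Fact p.Prime := ⟨hp⟩
    unfold eulerFactor
    congr 1
    set e := NumberField.Ideal.primesOverSpanEquivMonicFactorsMod hexp with he
    have hmon : (minpoly ℤ θ).Monic := minpoly.monic θ.isIntegral
    have hset : primeDivisors (minpoly ℤ θ) p =
        (RingOfIntegers.monicFactorsMod θ p : Set (ZMod p)[X]) := by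
      rw [hmem _ hmon p hp]
      rfl
    rw [hset, ← finprod_set_coe_eq_finprod_mem, ← finprod_set_coe_eq_finprod_mem]
    symm
    refine finprod_eq_of_bijective e e.bijective fun P => ?_
    obtain ⟨Q, rfl⟩ := e.symm.surjective P
    rw [Equiv.apply_symm_apply]
    have h1 := NumberField.Ideal.inertiaDeg_primesOverSpanEquivMonicFactorsMod_symm_apply' hexp
      Q.2
    have h2 := Ideal.natAbs_pow_inertiaDeg (p : ℤ) (e.symm Q : Ideal (𝓞 K))
    rw [Int.natAbs_natCast] at h2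
    rw [← h2]
    have h3 : (e.symm Q : Ideal (𝓞 K)).inertiaDeg ℤ = (Q : (ZMod p)[X]).natDegree := h1
    rw [h3]
    push_cast
    rw [← Real.rpow_natCast, ← Real.rpow_mul (Nat.cast_nonneg _), mul_neg]
  intro ε A hε hA
  have hlog : ∀ (f : ℤ[X]), f.Monic → ∀ x : ℕ, Real.log (centralProduct f x) =
      ∑ p ∈ Pool.Agent.N430.BP.Pr x, Pool.Agent.N430.BP.LLf f p := by
    intro f hf x
    unfold centralProduct
    rw [Real.log_prod fun p hp => ((hlogfac f hf p (mem_filter.1 hp).2).1).ne']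
    exact Finset.sum_congr rfl fun p hp => (hlogfac f hf p (mem_filter.1 hp).2).2
  set FF : Fin 1 ⊕ Fin 1 → Finset ℝ := Sum.elim (fun _ => F) (fun _ => G) with hFF
  set aa : Fin 1 ⊕ Fin 1 → ℝ → ℝ := Sum.elim (fun _ => α) (fun _ => β) with haa
  set cc : Fin 1 ⊕ Fin 1 → ℝ := Sum.elim (fun _ => γ) (fun _ => δ) with hcc
  have hadm : ∀ i, cc i ∈ FF i ∧ (∀ t ∈ FF i, t ≤ cc i) ∧ 0 < cc i ∧ (∀ m : ℕ, cc i ≠ m) ∧
      0 < aa i (cc i) := by
    rintro (i | i)
    · exact hF
    · exact hG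
  have hinj : Function.Injective cc := by
    rintro (i | i) (j | j) hij
    · exact congrArg _ (Subsingleton.elim _ _)
    · exact absurd hij hγδ
    · exact absurd hij.symm hγδ
    · exact congrArg _ (Subsingleton.elim _ _)
  obtain ⟨⟨ρ₁, hρ₁, hS₁⟩, ⟨ρ₂, hρ₂, hS₂⟩⟩ := Pool.Agent.N666.TM.fl_well hadm hinj
  obtain ⟨k₁, K₁, N₁, hk₁, hK₁, H₁⟩ := Pool.Agent.N666.TB.thin_poly hn hρ₁ hS₁ hε hA
  obtain ⟨k₂, K₂, N₂, hk₂, hK₂, H₂⟩ := Pool.Agent.N666.TB.thin_poly hn hρ₂ hS₂ hε hA
  refine ⟨max k₁ k₂, max K₁ K₂, max N₁ N₂, by omega, fun f₀ hf₀ hd N hN l hl => ?_⟩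
  have hl0 : 0 < l ^ (-A) := Real.rpow_pos_of_pos (by linarith) _
  have hrew : ∀ m : ℕ,
      Exceptional (f₀ + C (floorAt F α m) * X + C (floorAt G β m)) ε l (max k₁ k₂) N ↔
      ∃ x : ℕ, 16 ≤ x ∧ x ^ (max k₁ k₂) ≤ N ∧
        l * Real.log (Real.log x) ^ (1 / 2 : ℝ) * (1 + Real.log (Real.log (Real.log x))) ^ ε <
          |∑ p ∈ Pool.Agent.N430.BP.Pr x, Pool.Agent.N430.BP.LLf (Pool.Agent.N666.TB.memP f₀
            (Pool.Agent.N666.TB.prs (Pool.Agent.N666.TM.fl FF aa m))) p -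
              1 / 2 * Real.log (Real.log x)| := by
    intro m
    unfold Exceptional
    have hmon := (Pool.Agent.N430.BP.fam_monic' hf₀ (by rw [hd]; exact hn) (floorAt F α m)
      (floorAt G β m)).1
    simp only [hlog _ hmon]
    rfl
  constructor
  · have h1 := H₁ f₀ hf₀ hd (max k₁ k₂) (le_max_left _ _) N (by omega) l hl
    set E := (Finset.Ioc N (2 * N)).filter fun m : ℕ => ∃ x : ℕ, 16 ≤ x ∧ x ^ (max k₁ k₂) ≤ N ∧
        l * Real.log (Real.log x) ^ (1 / 2 : ℝ) * (1 + Real.log (Real.log (Real.log x))) ^ ε <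
          |∑ p ∈ Pool.Agent.N430.BP.Pr x, Pool.Agent.N430.BP.LLf (Pool.Agent.N666.TB.memP f₀
            (Pool.Agent.N666.TB.prs (Pool.Agent.N666.TM.fl FF aa m))) p -
              1 / 2 * Real.log (Real.log x)| with hE
    have e : {m : ℕ | N < m ∧ m ≤ 2 * N ∧
        Exceptional (f₀ + C (floorAt F α m) * X + C (floorAt G β m)) ε l (max k₁ k₂) N} =
        (E : Set ℕ) := by
      ext m
      rw [Finset.mem_coe, hE, Finset.mem_filter, Finset.mem_Ioc, ← hrew m]
      show (N < m ∧ m ≤ 2 * N ∧ _) ↔ _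
      tauto
    rw [e, Set.ncard_coe_finset]
    refine h1.trans ?_
    rw [Nat.card_Ioc, show 2 * N - N = N by omega]
    gcongr
    exact le_max_left _ _
  · have h1 := H₂ f₀ hf₀ hd (max k₁ k₂) (le_max_right _ _) N (by omega) l hl
    set E := (Pool.Agent.N666.VE.primes N).filter fun m : ℕ => ∃ x : ℕ, 16 ≤ x ∧
        x ^ (max k₁ k₂) ≤ N ∧
        l * Real.log (Real.log x) ^ (1 / 2 : ℝ) * (1 + Real.log (Real.log (Real.log x))) ^ ε <
          |∑ p ∈ Pool.Agent.N430.BP.Pr x, Pool.Agent.N430.BP.LLf (Pool.Agent.N666.TB.memP f₀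
            (Pool.Agent.N666.TB.prs (Pool.Agent.N666.TM.fl FF aa m))) p -
              1 / 2 * Real.log (Real.log x)| with hE
    have e : {m : ℕ | N < m ∧ m ≤ 2 * N ∧ m.Prime ∧
        Exceptional (f₀ + C (floorAt F α m) * X + C (floorAt G β m)) ε l (max k₁ k₂) N} =
        (E : Set ℕ) := by
      ext m
      rw [Finset.mem_coe, hE, Finset.mem_filter, Pool.Agent.N666.VE.primes, Finset.mem_filter,
        Finset.mem_Ioc, ← hrew m]
      show (N < m ∧ m ≤ 2 * N ∧ _ ∧ _) ↔ _
      tauto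
    have e2 : {m : ℕ | N < m ∧ m ≤ 2 * N ∧ m.Prime} =
        ((Pool.Agent.N666.VE.primes N : Finset ℕ) : Set ℕ) := by
      ext m
      rw [Finset.mem_coe, Pool.Agent.N666.VE.primes, Finset.mem_filter, Finset.mem_Ioc]
      show (N < m ∧ m ≤ 2 * N ∧ _) ↔ _
      tauto
    rw [e, e2, Set.ncard_coe_finset, Set.ncard_coe_finset]
    refine h1.trans ?_
    gcongr
    exact le_max_right _ _

end Pool.Agent.Results.MP_347b49_nt.ThinCentralProducts
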